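import Pool.Agent.H11.PS1

set_option autoImplicit false

namespace Pool.Agent.Results.MP_5adc07_lc.Hard
open Pool.Agent.H11.PT List

/-- a Mealy automaton: number of states, number of letters, transition table, output table -/
abbrev Mealy := ℕ × ℕ × List (List ℕ) × List (List ℕ)

/-- the entry of a table in row `q` and column `a` -/
def ent (T : List (List ℕ)) (q a : ℕ) : ℕ := (T.getD q []).getD a 0

/-- there is a state, and both tables stay inside the state set and the alphabet -/
def Valid (y : Mealy) : Prop :=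
  0 < y.1 ∧ ∀ q < y.1, ∀ a < y.2.1, ent y.2.2.1 q a < y.1 ∧ ent y.2.2.2 q a < y.2.1

/-- the output word produced from state `q` -/
def out (y : Mealy) : ℕ → List ℕ → List ℕ
  | _, [] => []
  | q, a :: u => ent y.2.2.2 q a :: out y (ent y.2.2.1 q a) u

/-- synchronizing words -/
def Syn (y : Mealy) (u : List ℕ) : Prop :=
  (∀ a ∈ u, a < y.2.1) ∧ ∀ p < y.1, ∀ q < y.1, u.foldl (ent y.2.2.1) p = u.foldl (ent y.2.2.1) q

/-- reset Mealy automata -/
def Reset (y : Mealy) : Prop := (∃ u, Syn y u) ∧ ∀ q < y.1, ∀ u, Syn y u → Syn y (out y q u)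

abbrev I := ℕ × ℕ × List Aut

def au (y : I) (i : ℕ) : Aut := y.2.2.getD i ([], 0, [])
def D (y : I) (q a : ℕ) : ℕ :=
  if a = y.2.1 + 4 then q else if a = y.2.1 + 2 ∧ q = 1 then 2 else
  if y.2.1 + 1 < a ∨ q < 3 then 0 else if a = y.2.1 + 1 then
    (if (q - 3) % y.1 ∈ (au y ((q - 3) / y.1)).2.2 then 0 else q) else
  3 + y.1 * ((q - 3) / y.1) + if a = y.2.1 then (au y ((q - 3) / y.1)).2.1 else
    dl (au y ((q - 3) / y.1)).1 ((q - 3) % y.1) a
def g (m a : ℕ) : ℕ := if a = m + 1 then m + 2 else if a = m + 2 ∨ a = m + 3 then m + 3 else m + 4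
def red (y : I) : Mealy := (3 + y.1 * y.2.2.length, y.2.1 + 5,
  mkT (3 + y.1 * y.2.2.length) (y.2.1 + 5) (D y), mkT (3 + y.1 * y.2.2.length) (y.2.1 + 5) fun _ => g y.2.1)

theorem red_pt : PT red := by unfold red mkT D g au dl; fun_prop

variable {y : I}

theorem au_mem {i : ℕ} (h : i < y.2.2.length) : au y i ∈ y.2.2 := by
  rw [au, getD_eq_getElem _ _ h]; exact getElem_mem _

theorem D_lt (h : DVal y) {q a : ℕ} (b : q < (red y).1) : D y q a < (red y).1 := by
  simp only [red] at *
  unfold D
  have k : 3 ≤ q → ∀ s < y.1, 3 + y.1 * ((q - 3) / y.1) + s < 3 + y.1 * y.2.2.length := fun c s d => by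
    have := Nat.mul_le_mul_left y.1 (Nat.div_lt_of_lt_mul (show q - 3 < y.1 * y.2.2.length by omega))
    rw [Nat.mul_succ] at this
    omega
  have l : 3 ≤ q → au y ((q - 3) / y.1) ∈ y.2.2 := fun c =>
    au_mem (Nat.div_lt_of_lt_mul (by omega))
  split_ifs <;> try omega
  · exact k (by omega) _ (h _ (l (by omega))).1
  · have := (h _ (l (by omega))).1
    exact k (by omega) _ ((h _ (l (by omega))).2 _ (Nat.mod_lt _ (by omega)) _ (by omega))

theorem run (h : DVal y) (u : List ℕ) : ∀ q < (red y).1, (∀ a ∈ u, a < y.2.1 + 5) →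
    u.foldl (ent (red y).2.2.1) q = u.foldl (D y) q ∧ out (red y) q u = u.map (g y.2.1) := by
  induction u with
  | nil => simp [out]
  | cons a u ih =>
    intro q b c
    rw [forall_mem_cons] at c
    have e1 : ent (red y).2.2.1 q a = D y q a := dl_mkT _ b c.1
    have e2 : ent (red y).2.2.2 q a = g y.2.1 a := dl_mkT (fun _ => g y.2.1) b c.1
    have := ih _ (D_lt (a := a) h b) c.2
    simp only [foldl_cons, out, map_cons, e1, e2, this, and_self]

theorem syn (h : DVal y) (u : List ℕ) : Syn (red y) u ↔ (∀ a ∈ u, a < y.2.1 + 5) ∧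
    ∀ q < (red y).1, u.foldl (D y) q = 0 := by
  have z : ∀ u : List ℕ, u.foldl (D y) 0 = 0 := fun u => by
    induction u with
    | nil => rfl
    | cons a u ih => rwa [foldl_cons, show D y 0 a = 0 by simp [D]]
  have o : 0 < (red y).1 := by simp [red]
  refine and_congr_right fun c => ⟨fun d q b => ?_, fun d p a q b => ?_⟩
  · rw [← (run h u q b c).1, d q b 0 o, (run h u 0 o c).1, z]
  · rw [(run h u p a c).1, (run h u q b c).1, d p a, d q b]

def Good (m : ℕ) (u : List ℕ) : Prop := ∀ a ∈ u, a ≤ m ∨ a = m + 4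

theorem nu {u : List ℕ} (h : Good y.2.1 u) (q : ℕ) : (u.map (g y.2.1)).foldl (D y) q = q := by
  induction u with
  | nil => rfl
  | cons a u ih =>
    have := forall_mem_cons.1 h
    rw [map_cons, foldl_cons, show g y.2.1 a = y.2.1 + 4 by unfold g; split_ifs <;> omega,
      show D y q _ = q by simp [D], ih this.2]

theorem z0 (u : List ℕ) : u.foldl (D y) 0 = 0 := by
  induction u with
  | nil => rfl
  | cons a u ih => rwa [foldl_cons, show D y 0 a = 0 by simp [D]]

theorem tri (u : List ℕ) (h : ∀ a ∈ u, a < y.2.1 + 5) : Good y.2.1 u ∨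
    (∃ v w, u = v ++ (y.2.1 + 1) :: w ∧ Good y.2.1 v ∧ Good y.2.1 w) ∨
      ∀ q, (u.map (g y.2.1)).foldl (D y) q = 0 := by
  induction u with
  | nil => exact .inl (by simp [Good])
  | cons a u ih =>
    rw [forall_mem_cons] at h
    by_cases c : a = y.2.1 + 2 ∨ a = y.2.1 + 3
    · refine .inr (.inr fun q => ?_)
      rw [map_cons, foldl_cons, show D y q _ = 0 by rcases c with rfl | rfl <;> simp [D, g], z0]
    obtain d | ⟨v, w, rfl, d, e⟩ | d := ih h.2
    · by_cases f : a = y.2.1 + 1
      · exact .inr (.inl ⟨[], u, by simp [f], by simp [Good], d⟩)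
      · exact .inl (forall_mem_cons.2 ⟨by omega, d⟩)
    · by_cases f : a = y.2.1 + 1
      · refine .inr (.inr fun q => ?_)
        rw [map_cons, foldl_cons, map_append, foldl_append, nu d, map_cons, foldl_cons, nu e, f]
        by_cases i : q = 1 <;> simp [D, g, i]
      · exact .inr (.inl ⟨a :: v, w, rfl, forall_mem_cons.2 ⟨by omega, d⟩, e⟩)
    · exact .inr (.inr fun q => d _)

def st (y : I) (i : ℕ) (w : List ℕ) : ℕ := w.foldl (dl (au y i).1) (au y i).2.1

theorem st_lt (h : DVal y) {i : ℕ} (b : i < y.2.2.length) (w : List ℕ) (c : ∀ a ∈ w, a < y.2.1) :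
    st y i w < y.1 := by
  induction w using reverseRecOn with
  | nil => exact (h _ (au_mem b)).1
  | append_singleton w a ih =>
    rw [forall_mem_append] at c
    rw [st, foldl_append]
    exact (h _ (au_mem b)).2 _ (ih c.1) _ (c.2 a (by simp))

theorem dm {n i s : ℕ} (h : s < n) : (3 + n * i + s - 3) / n = i ∧ (3 + n * i + s - 3) % n = s := by
  rw [show 3 + n * i + s - 3 = s + n * i by omega]
  exact ⟨by rw [Nat.add_mul_div_left _ _ (by omega), Nat.div_eq_of_lt h, zero_add],
    by rw [Nat.add_mul_mod_self_left, Nat.mod_eq_of_lt h]⟩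

theorem stp (h : DVal y) {i a : ℕ} (b : i < y.2.2.length) {w : List ℕ} (c : ∀ a ∈ w, a < y.2.1)
    (d : a < y.2.1) : D y (3 + y.1 * i + st y i w) a = 3 + y.1 * i + st y i (w ++ [a]) := by
  have := dm (i := i) (st_lt h b w c)
  rw [D, if_neg (by omega), if_neg (by omega), if_neg (by omega), if_neg (by omega),
    if_neg (by omega), this.1, this.2, st, st, foldl_append]
  rfl

theorem trk (h : DVal y) (u : List ℕ) (e : Good y.2.1 u) : ∀ w, (∀ a ∈ w, a < y.2.1) →
    ∃ w', (∀ a ∈ w', a < y.2.1) ∧ ∀ i < y.2.2.length,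
      u.foldl (D y) (3 + y.1 * i + st y i w) = 3 + y.1 * i + st y i w' := by
  induction u with
  | nil => exact fun w c => ⟨w, c, fun _ _ => rfl⟩
  | cons a u ih =>
    intro w c
    have e := forall_mem_cons.1 e
    by_cases d : a = y.2.1 + 4
    · obtain ⟨w', f⟩ := ih e.2 w c
      exact ⟨w', f.1, fun i b => by rw [foldl_cons, show D y _ a = _ from if_pos d, f.2 i b]⟩
    by_cases d' : a = y.2.1
    · obtain ⟨w', f⟩ := ih e.2 [] (by simp)
      refine ⟨w', f.1, fun i b => ?_⟩
      rw [foldl_cons, ← f.2 i b, D, if_neg d, if_neg (by omega), if_neg (by omega),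
        if_neg (by omega), if_pos d', (dm (st_lt h b w c)).1]
      rfl
    · obtain ⟨w', f⟩ := ih e.2 (w ++ [a]) (forall_mem_append.2 ⟨c, by simp; omega⟩)
      exact ⟨w', f.1, fun i b => by rw [foldl_cons, stp h b c (by omega), f.2 i b]⟩

theorem fin (h : DVal y) {i : ℕ} (b : i < y.2.2.length) {w : List ℕ} (c : ∀ a ∈ w, a < y.2.1) :
    D y (3 + y.1 * i + st y i w) (y.2.1 + 1) =
      if st y i w ∈ (au y i).2.2 then 0 else 3 + y.1 * i + st y i w := by
  have := dm (i := i) (st_lt h b w c)
  rw [D, if_neg (by omega), if_neg (by omega), if_neg (by omega), if_pos rfl, this.1, this.2]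

theorem key (h : DVal y) : ¬ DFAI y ↔ Reset (red y) := by
  have gl : ∀ u : List ℕ, ∀ a ∈ u.map (g y.2.1), a < y.2.1 + 5 := fun u => forall_mem_map.2
    fun a _ => by unfold g; split_ifs <;> omega
  have ix : ∀ A ∈ y.2.2, ∃ i < y.2.2.length, A = au y i := fun A a => by
    obtain ⟨i, b, rfl⟩ := getElem_of_mem a
    exact ⟨i, b, (getD_eq_getElem _ _ b).symm⟩
  refine ⟨fun n => ⟨⟨[y.2.1 + 3], (syn h _).2 (by simp [D])⟩, fun q b u s => ?_⟩, ?_⟩
  · rw [(run h u q b s.1).2, syn h]
    rw [syn h] at s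
    have lt : ∀ i < y.2.2.length, 3 + y.1 * i + st y i [] < (red y).1 := fun i c => by
      have := Nat.mul_le_mul_left y.1 c
      have := st_lt h c [] (by simp)
      rw [Nat.mul_succ] at *
      simp only [red]; omega
    obtain d | ⟨v, w, rfl, d, e⟩ | d := tri u s.1
    · obtain ⟨w, f⟩ := trk h u d [] (by simp)
      refine absurd ⟨w, f.1, fun A a => ?_⟩ n
      obtain ⟨i, c, rfl⟩ := ix A a
      have := (f.2 i c).symm.trans (s.2 _ (lt i c))
      omega
    · obtain ⟨w', f⟩ := trk h v d [] (by simp)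
      obtain ⟨w'', k⟩ := trk h w e w' f.1
      refine absurd ⟨w', f.1, fun A a => ?_⟩ n
      obtain ⟨i, c, rfl⟩ := ix A a
      have := s.2 _ (lt i c)
      rw [foldl_append, f.2 i c, foldl_cons, fin h c f.1] at this
      by_contra j
      rw [if_neg (show ¬ st y i w' ∈ _ from j), k.2 i c] at this
      omega
    · exact ⟨gl u, fun q _ => d q⟩
  · rintro ⟨-, r⟩ ⟨w, a, b⟩
    have s : Syn (red y) (y.2.1 :: w ++ [y.2.1 + 1]) := (syn h _).2 ⟨by
      simp only [forall_mem_append, forall_mem_cons]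
      exact ⟨⟨by omega, fun x c => by have := a x c; omega⟩, by simp⟩, fun q c => by
        rw [cons_append, foldl_cons]
        by_cases d : q < 3
        · rw [show D y q _ = 0 by simp [D, d], z0]
        have e : (q - 3) / y.1 < y.2.2.length := Nat.div_lt_of_lt_mul (by simp only [red] at c; omega)
        rw [D, if_neg (by omega), if_neg (by omega), if_neg (by omega), if_neg (by omega), if_pos rfl]
        generalize (q - 3) / y.1 = i at *
        have : ∀ v : List ℕ, (∀ x ∈ v, x < y.2.1) → v.foldl (D y) (3 + y.1 * i + (au y i).2.1) =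
            3 + y.1 * i + st y i v := fun v f => by
          induction v using reverseRecOn with
          | nil => rfl
          | append_singleton v x ih =>
            rw [forall_mem_append] at f
            rw [foldl_append, ih f.1]
            exact stp h e f.1 (f.2 x (by simp))
        rw [foldl_append, this w a]
        exact (fin h e a).trans (if_pos (b _ (au_mem e)))⟩
    have o : 1 < (red y).1 := by simp only [red]; omega
    have := r 1 o _ s
    rw [(run h _ 1 o s.1).2, syn h] at this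
    have := this.2 1 o
    rw [map_append, foldl_append, nu (u := y.2.1 :: w) (forall_mem_cons.2 ⟨by omega, fun x c => by
      have := a x c; omega⟩)] at this
    simp [D, g] at this

theorem co {L : List Bool → Prop} (h : InPSPACE L) : InPSPACE fun x => ¬ L x := by
  obtain ⟨V, M, q, a, b⟩ := h
  refine ⟨fun x => !V x, ⟨⟨M.tm, M.inputAlphabet, M.outputAlphabet.trans
    ⟨not, not, Bool.not_not, Bool.not_not⟩⟩, fun x => ?_⟩, q, fun x => by simp [a], b⟩
  simpa using M.outputsFun x

theorem result : PSPACEHard fun y => Valid y ∧ Reset y := fun L hL => by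
  obtain ⟨f, a, b⟩ := hard_DFAI _ (co hL)
  refine ⟨fun x => red (f x), (red_pt.comp a).polyTime_raw, fun x => ?_⟩
  have v : Valid (red (f x)) := ⟨by simp [red], fun q c l d => ⟨(dl_mkT _ c d).trans_lt
    (D_lt (b x).1 c), (dl_mkT (fun _ => g (f x).2.1) c d).trans_lt (by
      simp only [red, g]; split_ifs <;> omega)⟩⟩
  simp only [← key (b x).1, ← (b x).2]
  simp [v]

end Pool.Agent.Results.MP_5adc07_lc.Hard
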